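import Mathlib

set_option autoImplicit false
open Finset

namespace Pool.Agent.Results.MP_130313_co.NoLinearConstant

/-- The chromatic number as a natural number. -/
noncomputable def chi {W : Type} (F : SimpleGraph W) : ℕ := F.chromaticNumber.toNat

/-- Size of colour class `j` of the proper colouring `c`. -/
noncomputable def classSize {W : Type} {F : SimpleGraph W} {l : ℕ} (c : F.Coloring (Fin l))
    (j : Fin l) : ℕ := {x | c x = j}.ncard

/-- The least size of a colour class in an optimal colouring (proper colouring with `chi F`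
colours). -/
noncomputable def sigma {W : Type} (F : SimpleGraph W) : ℕ :=
  sInf {s | ∃ (c : F.Coloring (Fin (chi F))) (j : Fin (chi F)), classSize c j = s}

/-- The critical chromatic number. -/
noncomputable def chiCr {W : Type} [Fintype W] (F : SimpleGraph W) : ℝ :=
  ((chi F : ℝ) - 1) * (Fintype.card W : ℝ) / ((Fintype.card W : ℝ) - (sigma F : ℝ))

/-- The set of differences of consecutive class sizes, the classes of an optimal colouring being
listed in nondecreasing order of size. -/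
def diffSet {W : Type} (F : SimpleGraph W) : Set ℕ :=
  {d | ∃ c : F.Coloring (Fin (chi F)), Monotone (classSize c) ∧
    ∃ i j : Fin (chi F), j.val = i.val + 1 ∧ d = classSize c j - classSize c i}

/-- The highest common factor of `diffSet F` is one. -/
def HcfOne {W : Type} (F : SimpleGraph W) : Prop :=
  ∀ p : ℕ, (∀ d ∈ diffSet F, p ∣ d) → p = 1

/-- `G` has vertex-disjoint copies of `F` covering every vertex. -/
def HasPerfectPacking {W V : Type} (F : SimpleGraph W) (G : SimpleGraph V) : Prop :=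
  ∃ (m : ℕ) (φ : Fin m → F.Copy G), Function.Bijective (fun p : Fin m × W => φ p.1 p.2)

/-- Complete 3-partite graph with parts the fibres of `f`. -/
def K3 {W : Type} (f : W → Fin 3) : SimpleGraph W where
  Adj x y := f x ≠ f y
  symm := ⟨fun _ _ h => h.symm⟩
  loopless := ⟨fun _ h => h rfl⟩

/-- Three consecutive intervals of sizes `a`, `b`, `n - a - b`. -/
def tri (n a b : ℕ) (v : Fin n) : Fin 3 :=
  if v.val < a then 0 else if v.val < a + b then 1 else 2

lemma tri_eq0 {n a b : ℕ} (v : Fin n) : tri n a b v = 0 ↔ v.val < a := by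
  unfold tri; split_ifs <;> simp [*]

lemma tri_eq1 {n a b : ℕ} (v : Fin n) : tri n a b v = 1 ↔ a ≤ v.val ∧ v.val < a + b := by
  unfold tri; split_ifs <;> simp <;> omega

lemma tri_eq2 {n a b : ℕ} (v : Fin n) : tri n a b v = 2 ↔ a + b ≤ v.val := by
  unfold tri; split_ifs <;> simp <;> omega

lemma ncard_Ico {n : ℕ} (a b : ℕ) (hb : b ≤ n) :
    {v : Fin n | a ≤ v.val ∧ v.val < b}.ncard = b - a := by
  rw [← Set.ncard_image_of_injective _ Fin.val_injective, ← Nat.card_Ico, ← Set.ncard_coe_finset]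
  congr 1
  ext x
  simp only [Set.mem_image, Set.mem_ofPred_eq, coe_Ico, Set.mem_Ico]
  constructor
  · rintro ⟨v, hv, rfl⟩; exact hv
  · intro h; exact ⟨⟨x, by omega⟩, h, rfl⟩

lemma tri_size (a b c : ℕ) (j : Fin 3) :
    {v | tri (a + b + c) a b v = j}.ncard = ![a, b, c] j := by
  fin_cases j
  · have := ncard_Ico (n := a + b + c) 0 a (by omega)
    simp only [Nat.zero_le, true_and, Nat.sub_zero] at this
    simpa [tri_eq0] using this
  · have := ncard_Ico (n := a + b + c) a (a + b) (by omega)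
    simpa [tri_eq1] using this
  · have := ncard_Ico (n := a + b + c) (a + b) (a + b + c) (by omega)
    simpa [tri_eq2] using this

lemma uniq {W : Type} (f : W → Fin 3) (hf : Function.Surjective f) (c : W → Fin 3)
    (hc : ∀ x y, f x ≠ f y → c x ≠ c y) (j : Fin 3) : ∃ i, ∀ x, c x = j ↔ f x = i := by
  choose r hr using hf
  have hinj : Function.Injective (fun i => c (r i)) := by
    intro i k h
    by_contra hik
    exact hc (r i) (r k) (by rw [hr, hr]; exact hik) h
  have hsurj := Finite.injective_iff_surjective.mp hinj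
  have key : ∀ x, c x = c (r (f x)) := by
    intro x
    obtain ⟨k, hk⟩ := hsurj (c x)
    by_cases h : f x = k
    · rw [h]; exact hk.symm
    · exact absurd hk.symm (hc x (r k) (by rw [hr]; exact h))
  obtain ⟨i, hi⟩ := hsurj j
  refine ⟨i, fun x => ?_⟩
  rw [key x, ← hi]
  exact hinj.eq_iff

def col {W : Type} (f : W → Fin 3) : (K3 f).Coloring (Fin 3) :=
  SimpleGraph.Coloring.mk f (fun h => h)

lemma not_col2 {W : Type} (f : W → Fin 3) (hf : Function.Surjective f) :
    ¬ (K3 f).Colorable 2 := by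
  rintro ⟨c⟩
  choose r hr using hf
  have hinj : Function.Injective (fun i => c (r i)) := by
    intro i k h
    by_contra hik
    exact c.valid (show (K3 f).Adj (r i) (r k) by
      show f _ ≠ f _
      rw [hr, hr]; exact hik) h
  have := Fintype.card_le_of_injective _ hinj
  simp at this

lemma chi_K3 {W : Type} (f : W → Fin 3) (hf : Function.Surjective f) : chi (K3 f) = 3 := by
  have h : (K3 f).chromaticNumber = (2 : ℕ) + 1 :=
    SimpleGraph.chromaticNumber_eq_iff_colorable_not_colorable.mpr ⟨⟨col f⟩, not_col2 f hf⟩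
  unfold chi
  rw [h]
  rfl

lemma tri_surj (a b c : ℕ) (ha : 0 < a) (hb : 0 < b) (hc : 0 < c) :
    Function.Surjective (tri (a + b + c) a b) := by
  intro j
  fin_cases j
  · exact ⟨⟨0, by omega⟩, (tri_eq0 _).mpr ha⟩
  · exact ⟨⟨a, by omega⟩, (tri_eq1 _).mpr ⟨le_rfl, by simpa using hb⟩⟩
  · exact ⟨⟨a + b, by omega⟩, (tri_eq2 _).mpr le_rfl⟩

lemma class_mem (s : ℕ) (hs : 0 < s) (c : Fin (1 + s + (s + 1)) → Fin 3)
    (hc : ∀ x y, tri (1 + s + (s + 1)) 1 s x ≠ tri (1 + s + (s + 1)) 1 s y → c x ≠ c y)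
    (j : Fin 3) :
    {x | c x = j}.ncard = 1 ∨ {x | c x = j}.ncard = s ∨ {x | c x = j}.ncard = s + 1 := by
  obtain ⟨i, hi⟩ := uniq _ (tri_surj 1 s (s + 1) (by omega) hs (by omega)) c hc j
  have h1 : {x | c x = j} = {x | tri (1 + s + (s + 1)) 1 s x = i} := by
    ext x; exact hi x
  rw [h1, tri_size]
  fin_cases i <;> simp

lemma sigma_F (s : ℕ) (hs : 0 < s) : sigma (K3 (tri (1 + s + (s + 1)) 1 s)) = 1 := by
  unfold sigma
  rw [chi_K3 _ (tri_surj 1 s (s + 1) (by omega) hs (by omega))]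
  have hmem : 1 ∈ {t | ∃ (c : (K3 (tri (1 + s + (s + 1)) 1 s)).Coloring (Fin 3)) (j : Fin 3),
      classSize c j = t} := ⟨col _, 0, tri_size 1 s (s + 1) 0⟩
  refine le_antisymm (Nat.sInf_le hmem) ?_
  obtain ⟨c, j, h⟩ := Nat.sInf_mem ⟨1, hmem⟩
  rw [← h]
  have := class_mem s hs c (fun x y hxy => c.valid hxy) j
  unfold classSize
  omega

lemma hcf_F (s : ℕ) (hs : 0 < s) : HcfOne (K3 (tri (1 + s + (s + 1)) 1 s)) := by
  intro p hp
  apply Nat.eq_one_of_dvd_one
  apply hp
  unfold diffSet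
  rw [chi_K3 _ (tri_surj 1 s (s + 1) (by omega) hs (by omega))]
  have hsz : classSize (col (tri (1 + s + (s + 1)) 1 s)) = ![1, s, s + 1] :=
    funext (tri_size 1 s (s + 1))
  refine ⟨col _, ?_, 1, 2, rfl, ?_⟩
  · rw [hsz, Fin.monotone_iff_le_succ]
    intro i
    fin_cases i
    · simpa using Nat.succ_le_of_lt hs
    · simp
  · rw [hsz]; simp

lemma frob (t g x y : ℕ) (ht : 0 < t) (hg : g + t + 1 = t * t) : g ≠ t * x + (t + 1) * y := by
  intro h
  have h1 : t ∣ y + 1 := by
    have h2 : t * t = t * (x + y + 1) + (y + 1) := by rw [← hg, h]; ring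
    exact (Nat.dvd_add_right (Dvd.intro _ rfl)).mp (h2 ▸ Dvd.intro _ rfl)
  have h3 := Nat.le_of_dvd (by omega) h1
  nlinarith

lemma no_packing (t g m b : ℕ) (ht : 0 < t) (hg : g + t + 1 = t * t)
    (hn : m + g + b + b = (1 + (t + 1) + (t + 1 + 1)) * m) :
    ¬ HasPerfectPacking (K3 (tri (1 + (t + 1) + (t + 1 + 1)) 1 (t + 1)))
      (K3 (tri (m + g + b + b) (m + g) b)) := by
  classical
  rintro ⟨m', φ, hφ⟩
  have hm : m' = m := by
    have := Fintype.card_of_bijective hφ
    simp only [Fintype.card_prod, Fintype.card_fin] at this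
    rw [hn, mul_comm] at this
    exact Nat.eq_of_mul_eq_mul_left (by omega) this
  subst hm
  have h0 := tri_size (m' + g) b b 0
  have h1 : {v | tri (m' + g + b + b) (m' + g) b v = 0}.ncard =
      ∑ i : Fin m', {x | tri (m' + g + b + b) (m' + g) b (φ i x) = 0}.ncard := by
    simp only [Set.ncard_eq_toFinset_card', Set.toFinset_ofPred, card_filter]
    rw [← Fintype.sum_prod_type' (f := fun i x =>
      if tri (m' + g + b + b) (m' + g) b (φ i x) = 0 then 1 else 0)]
    exact (hφ.sum_comp (fun v => if tri (m' + g + b + b) (m' + g) b v = 0 then 1 else 0)).symm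
  have h2 : ∀ i : Fin m', ∃ x y : ℕ, {x | tri (m' + g + b + b) (m' + g) b (φ i x) = 0}.ncard =
      1 + (t * x + (t + 1) * y) := by
    intro i
    have := class_mem (t + 1) (by omega) (fun x => tri (m' + g + b + b) (m' + g) b (φ i x))
      (fun x y hxy => (φ i).toHom.map_rel (show (K3 _).Adj x y from hxy)) 0
    rcases this with h | h | h
    · exact ⟨0, 0, by rw [h]; ring⟩
    · exact ⟨1, 0, by rw [h]; ring⟩
    · exact ⟨0, 1, by rw [h]; ring⟩
  choose x y hxy using h2
  rw [h1] at h0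
  simp only [hxy, sum_add_distrib, ← mul_sum] at h0
  simp at h0
  exact frob t g _ _ ht hg h0.symm

lemma deg_G (a b : ℕ) (hab : a ≤ b) (v : Fin (a + b + b)) :
    a + b ≤ ((K3 (tri (a + b + b) a b)).neighborSet v).ncard := by
  have h1 := tri_size a b b (tri (a + b + b) a b v)
  have h2 : {w | tri (a + b + b) a b w = tri (a + b + b) a b v}.ncard ≤ b := by
    rw [h1]
    generalize tri (a + b + b) a b v = j
    fin_cases j <;> simp [hab]
  have h3 : (K3 (tri (a + b + b) a b)).neighborSet v =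
      {w | tri (a + b + b) a b w = tri (a + b + b) a b v}ᶜ := by
    ext w
    simp [K3, eq_comm]
  have h4 := Set.ncard_add_ncard_compl {w | tri (a + b + b) a b w = tri (a + b + b) a b v}
  rw [h3]
  simp only [Nat.card_eq_fintype_card, Fintype.card_fin] at h4
  omega

/-- For every `K` there is a non-bipartite graph `F` with `hcf(F) = 1` such that for infinitely many
`n` divisible by `|F|` some `n`-vertex graph of minimum degree at least
`(1 - 1/χ_cr(F)) n + K |F|` has no perfect `F`-packing. -/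
theorem result :
    ∀ K : ℝ, ∃ (f : ℕ) (F : SimpleGraph (Fin f)), ¬ F.Colorable 2 ∧ HcfOne F ∧
      ∀ n₀ : ℕ, ∃ n : ℕ, n₀ ≤ n ∧ f ∣ n ∧ ∃ G : SimpleGraph (Fin n),
        (∀ v, (1 - 1 / chiCr F) * (n : ℝ) + K * (f : ℝ) ≤ ((G.neighborSet v).ncard : ℝ)) ∧
        ¬ HasPerfectPacking F G := by
  intro K
  obtain ⟨v, hv⟩ := exists_nat_ge (4 * K)
  have hs : 0 < 2 * v + 2 + 1 := by omega
  have hsurj := tri_surj 1 (2 * v + 2 + 1) (2 * v + 2 + 1 + 1) (by omega) hs (by omega)
  refine ⟨_, K3 (tri (1 + (2 * v + 2 + 1) + (2 * v + 2 + 1 + 1)) 1 (2 * v + 2 + 1)),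
    not_col2 _ hsurj, hcf_F _ hs, fun r => ?_⟩
  obtain ⟨w, hw⟩ : ∃ w, w = 2 * v * v + 3 * v := ⟨_, rfl⟩
  obtain ⟨m, hm⟩ : ∃ m, m = 2 * (w + r) + 1 := ⟨_, rfl⟩
  obtain ⟨g, hg⟩ : ∃ g, g = 2 * w + 1 := ⟨_, rfl⟩
  obtain ⟨b, hb⟩ : ∃ b, b = (4 * v + 6) * w + (4 * v + 7) * r + 2 * v + 3 := ⟨_, rfl⟩
  have hn : m + g + b + b = (1 + (2 * v + 2 + 1) + (2 * v + 2 + 1 + 1)) * m := by
    rw [hm, hg, hb]; ring
  refine ⟨m + g + b + b, by omega, ⟨m, hn⟩, K3 (tri (m + g + b + b) (m + g) b), fun x => ?_,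
    no_packing (2 * v + 2) g m b (by omega) (by rw [hg, hw]; ring) hn⟩
  have hd := deg_G (m + g) b (by rw [hm, hg, hb]; nlinarith) x
  have hd' : ((m + g + b : ℕ) : ℝ) ≤ _ := Nat.cast_le.mpr hd
  refine le_trans ?_ hd'
  unfold chiCr
  rw [chi_K3 _ hsurj, sigma_F _ hs, Fintype.card_fin]
  have hv0 : (0 : ℝ) ≤ v := Nat.cast_nonneg v
  have e1 : (1 - 1 / ((((3 : ℕ) : ℝ) - 1) *
      ((1 + (2 * v + 2 + 1) + (2 * v + 2 + 1 + 1) : ℕ) : ℝ) /
      (((1 + (2 * v + 2 + 1) + (2 * v + 2 + 1 + 1) : ℕ) : ℝ) - ((1 : ℕ) : ℝ)))) *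
      ((m + g + b + b : ℕ) : ℝ) = (4 * v + 9) * m / 2 := by
    rw [hn]
    push_cast
    have h1 : (1 + (2 * (v : ℝ) + 2 + 1) + (2 * v + 2 + 1 + 1)) = 4 * v + 8 := by ring
    have h2 : (4 * (v : ℝ) + 8 - 1) = 4 * v + 7 := by ring
    rw [h1, h2]
    field_simp
    ring
  rw [e1, hb, hg, hm, hw]
  push_cast
  nlinarith

end Pool.Agent.Results.MP_130313_co.NoLinearConstant
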